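import Mathlib
import Pool.Agent.H1.NevA

open Complex Filter Topology Set

namespace Pool.Agent.Results.MP_9bfa98_an.Disproof

/-- Nevanlinna function: meromorphic on the plane, `Im m` has the sign of `Im z`. -/
def Nev (m : ℂ → ℂ) : Prop :=
  MeromorphicOn m univ ∧ (∀ z : ℂ, 0 < z.im → 0 < (m z).im) ∧
    ∀ z : ℂ, z.im < 0 → (m z).im < 0

/-- Number of zeros of `f` in `U`, with multiplicity. -/
noncomputable def zc (f : ℂ → ℂ) (U : Set ℂ) : ℕ :=
  ∑ᶠ z ∈ U, (meromorphicOrderAt f z).untop₀.toNat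

/-- Number of poles of `f` in `U`, with multiplicity. -/
noncomputable def pc (f : ℂ → ℂ) (U : Set ℂ) : ℕ :=
  ∑ᶠ z ∈ U, (-(meromorphicOrderAt f z).untop₀).toNat

theorem result : ∃ (m : ℕ → ℂ → ℂ) (g : ℂ → ℂ),
    (∀ j, Nev (m j)) ∧ Differentiable ℂ g ∧
    (∀ a b : ℝ, a < b → Tendsto (fun j => {z ∈ ((↑) : ℝ → ℂ) '' Ioo a b |
      meromorphicOrderAt (m j) z < 0}.ncard) atTop atTop) ∧
    (∀ j z, meromorphicOrderAt (m j - g) z ≠ ⊤) ∧
    (∀ j U, Bornology.IsBounded U → {z ∈ U | meromorphicOrderAt (m j) z < 0}.Finite ∧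
      {z ∈ U | 0 < meromorphicOrderAt (m j - g) z}.Finite) ∧
    ∀ a b : ℝ, a < b → ∀ U : Set ℂ, IsOpen U → Bornology.IsBounded U →
      ((↑) : ℝ → ℂ) '' Ioo a b ⊆ U →
      Tendsto (fun j => |(zc (m j - g) U : ℤ) - pc (m j) U|) atTop atTop := by
  have hp : ∀ j : ℕ, (0 : ℝ) < (j : ℝ) + 1 := fun j => by positivity
  refine ⟨fun j w => tan ((((j : ℝ) + 1 : ℝ) : ℂ) * w), fun _ => I, fun j => ⟨?_, ?_, ?_⟩,
    differentiable_const _, H1.NevA.many, ?_, ?_, ?_⟩
  · exact fun z _ => H1.NevA.mero _ z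
  · intro z hz
    refine H1.NevA.tan_pos _ ?_
    rw [im_ofReal_mul]; exact mul_pos (hp j) hz
  · intro z hz
    refine H1.NevA.tan_neg' _ ?_
    rw [im_ofReal_mul]; exact mul_neg_of_pos_of_neg (hp j) hz
  · intro j z h
    exact H1.NevA.nozero _ z (by rw [h]; exact WithTop.coe_lt_top 0)
  · intro j U hU
    refine ⟨H1.NevA.fin_poles _ (hp j) U hU, ?_⟩
    convert Set.finite_empty
    ext z
    simp only [mem_ofPred_eq, mem_empty_iff_false, iff_false, not_and]
    exact fun _ => H1.NevA.nozero _ z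
  · intro a b hab U _ hU hsub
    have h1 := tendsto_natCast_atTop_atTop (R := ℤ) |>.comp (H1.NevA.many a b hab)
    refine tendsto_atTop_mono (fun j => ?_) h1
    have hz : zc ((fun w => tan ((((j : ℝ) + 1 : ℝ) : ℂ) * w)) - fun _ => I) U = 0 := by
      refine finsum_mem_of_eqOn_zero fun z _ => ?_
      have := H1.NevA.nozero (((j : ℝ) + 1 : ℝ) : ℂ) z
      simp only [Pi.zero_apply]
      generalize meromorphicOrderAt ((fun w => tan ((((j : ℝ) + 1 : ℝ) : ℂ) * w)) -
        fun _ => I) z = o at this ⊢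
      induction o with
      | top => simp
      | coe k =>
        rw [← WithTop.coe_zero, WithTop.coe_lt_coe] at this
        rw [WithTop.untop₀_coe]; omega
    have hf := H1.NevA.fin_poles _ (hp j) U hU
    have h2 := H1.NevA.ncard_le _ U hf
    have h3 := Set.ncard_le_ncard (s := {z ∈ ((↑) : ℝ → ℂ) '' Ioo a b |
      meromorphicOrderAt (fun w => tan ((((j : ℝ) + 1 : ℝ) : ℂ) * w)) z < 0})
      (fun z hz => by exact ⟨hsub hz.1, hz.2⟩) hf
    have h4 := h3.trans h2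
    simp only [Function.comp_apply, hz, Nat.cast_zero, zero_sub, abs_neg, Nat.abs_cast]
    exact_mod_cast h4

end Pool.Agent.Results.MP_9bfa98_an.Disproof
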